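import Pool.Agent.H6.FIB.TargetsR
import Pool.Agent.H6.FI.Lib

/-!
# Row MUL of the board `fib_modules`: the multiplicities
-/

set_option autoImplicit false

open scoped Classical ComplexConjugate

namespace Pool.Agent.H66.FIB

open FI AMc AMt

section

variable {Γ : Type} [Group Γ]

theorem MUL_cj_mul (u v : Γ) (θ : Γ → ℂ) : cj (u * v) θ = cj v (cj u θ) := by
  funext g
  simp only [cj]
  congr 1
  group

theorem MUL_cj_one (θ : Γ → ℂ) : cj 1 θ = θ := by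
  funext g
  simp only [cj, one_mul, inv_one, mul_one]

theorem MUL_fix (P : Subgroup Γ) (hab : ∀ a ∈ P, ∀ b ∈ P, a * b = b * a) (α : Γ → ℂ)
    (hs : ∀ g, g ∉ P → α g = 0) (p : Γ) (hp : p ∈ P) : cj p α = α := by
  funext g
  simp only [cj]
  by_cases hg : g ∈ P
  · rw [hab p hp g hg, mul_inv_cancel_right]
  · rw [hs g hg, hs]
    intro h
    apply hg
    have h1 := P.mul_mem (P.mul_mem (P.inv_mem hp) h) hp
    have h2 : p⁻¹ * (p * g * p⁻¹) * p = g := by group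
    rwa [h2] at h1

variable [Fintype Γ]

/-- the orbit of `α` -/
noncomputable def orb (N : Subgroup Γ) (α : Γ → ℂ) : Finset (Γ → ℂ) :=
  (Finset.univ.filter (fun b : Γ => b ∈ N)).image (fun b => cj b α)

theorem mem_orb (N : Subgroup Γ) (α β : Γ → ℂ) : β ∈ orb N α ↔ ∃ b ∈ N, β = cj b α := by
  unfold orb
  rw [Finset.mem_image]
  constructor
  · rintro ⟨b, hb, rfl⟩
    exact ⟨b, (Finset.mem_filter.1 hb).2, rfl⟩
  · rintro ⟨b, hb, rfl⟩
    exact ⟨b, Finset.mem_filter.2 ⟨Finset.mem_univ _, hb⟩, rfl⟩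

theorem card_filter_mem (N : Subgroup Γ) :
    (Finset.univ.filter (fun b : Γ => b ∈ N)).card = Nat.card N := by
  rw [Nat.card_eq_fintype_card, Fintype.card_subtype]

theorem orb_card (P N : Subgroup Γ) (hPN : P ≤ N) (α : Γ → ℂ)
    (hs : ∀ b ∈ N, cj b α = α → b ∈ P) (hfix : ∀ p ∈ P, cj p α = α) :
    (orb N α).card * Nat.card P = Nat.card N := by
  rw [← card_filter_mem N, Finset.card_eq_sum_card_image (fun b => cj b α)]
  change _ = ∑ y ∈ orb N α, _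
  rw [← smul_eq_mul, ← Finset.sum_const]
  refine Finset.sum_congr rfl fun y hy => ?_
  rw [mem_orb] at hy
  obtain ⟨b0, hb0, rfl⟩ := hy
  rw [← card_filter_mem P]
  refine Finset.card_bij (fun p _ => p * b0) ?_ ?_ ?_
  · intro p hp
    have hp' := (Finset.mem_filter.1 hp).2
    rw [Finset.mem_filter, Finset.mem_filter]
    refine ⟨⟨Finset.mem_univ _, N.mul_mem (hPN hp') hb0⟩, ?_⟩
    rw [MUL_cj_mul, hfix p hp']
  · intro p _ p' _ h
    exact mul_right_cancel h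
  · intro b hb
    rw [Finset.mem_filter, Finset.mem_filter] at hb
    refine ⟨b * b0⁻¹, ?_, by group⟩
    rw [Finset.mem_filter]
    refine ⟨Finset.mem_univ _, hs _ (N.mul_mem hb.1.2 (N.inv_mem hb0)) ?_⟩
    rw [MUL_cj_mul, hb.2, ← MUL_cj_mul, mul_inv_cancel, MUL_cj_one]

theorem MUL_Ab_cj (Z P N : Subgroup Γ) (hZc : ∀ z ∈ Z, ∀ g, z * g = g * z)
    (hPN : P ≤ N) (hN : ∀ g ∈ N, ∀ x ∈ P, g * x * g⁻¹ ∈ P) (ν : Γ → ℂ) (hν : ν ∈ IrrS Z)
    (α : Γ → ℂ) (hα : α ∈ Ab P ν) (b : Γ) (hb : b ∈ N) : cj b α ∈ Ab P ν := by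
  refine ⟨FI.Lib.lS7 Γ P P b ?_ α hα.1, ?_⟩
  · intro g
    constructor
    · exact fun h => hN b hb g h
    · intro h
      have h1 := hN b⁻¹ (N.inv_mem hb) _ h
      have h2 : b⁻¹ * (b * g * b⁻¹) * b⁻¹⁻¹ = g := by group
      rwa [h2] at h1
  · have hνs := (FI.Lib.lS1 Γ Z ν hν).1
    have hνb : ∀ g, ν (b⁻¹ * g * b) = ν g := by
      intro g
      by_cases hg : g ∈ Z
      · congr 1
        rw [mul_assoc, hZc g hg b]
        group
      · rw [hνs g hg, hνs]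
        intro h
        apply hg
        have h1 := hZc _ h b⁻¹
        have h2 : g = b⁻¹ * g * b := by
          have h3 : b⁻¹ * g * b * b⁻¹ = b⁻¹ * (b⁻¹ * g * b) := h1
          have h4 : b⁻¹ * g = b⁻¹ * (b⁻¹ * g * b) := by
            rw [← h3]; group
          exact mul_left_cancel h4
        rw [h2]
        exact h
    have h1 : ∑ g, cj b α g * conj (ν g) = ∑ g, α g * conj (ν g) := by
      refine Fintype.sum_equiv (MulAut.conj b).toEquiv _ _ fun g => ?_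
      simp only [cj, MulEquiv.toEquiv_eq_coe, EquivLike.coe_coe, MulAut.conj_apply]
      congr 2
      rw [← hνb (b * g * b⁻¹)]
      congr 1
      group
    have h2 := hα.2
    unfold Over at h2 ⊢
    rw [h1]
    exact h2

end

theorem pf_MUL (h1 : T_TIM) (h2 : T_RSM) (h3 : T_PAB) (h4 : T_PAC) (h5 : T_PAS) (h6 : T_ZCH)
    (_h7 : T_ABL) (_h8 : T_SIG) : T_MUL := by
  intro q A _ _ S U B hQ M _ _ π hrange hker ν hν
  obtain ⟨p1, p2, p3, p4, p5, p6, p7, p8⟩ := h3 q A S U B hQ M π hrange hker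
  obtain ⟨α0, α1, α2, hPA⟩ := h4 q A S U B hQ M π hrange hker ν hν
  set Z := π.ker with hZ
  set P := U.comap π with hP
  set N := B.comap π with hN
  have hZc : ∀ z ∈ Z, ∀ g, z * g = g * z := by
    intro z hz g
    exact (Subgroup.mem_center_iff.1 (hker hz) g).symm
  obtain ⟨r, hr⟩ : ∃ r, q = r + 1 := ⟨q - 1, by have := hQ.sev; omega⟩
  have hz0 : 0 < Nat.card Z := Nat.card_pos
  -- cardinalities
  have c1 : Nat.card P = Nat.card Z * (r + 1) := by rw [p6, hr]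
  have c2 : 2 * Nat.card N = Nat.card Z * ((r + 1) * r) := by
    rw [p7, hr]; rfl
  have c3 : 2 * Nat.card M = Nat.card Z * ((r + 1) * (r * r + 2 * r)) := by
    have h : (r + 1) * (r + 1) - 1 = r * r + 2 * r := by
      have : (r + 1) * (r + 1) = r * r + 2 * r + 1 := by ring
      omega
    rw [p8, hr, h]
  have hfix1 : ∀ p ∈ P, cj p α1 = α1 := fun p hp =>
    MUL_fix P p3 α1 (FI.Lib.lS1 M P α1 hPA.m1.1).1 p hp
  have hfix2 : ∀ p ∈ P, cj p α2 = α2 := fun p hp =>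
    MUL_fix P p3 α2 (FI.Lib.lS1 M P α2 hPA.m2.1).1 p hp
  have ho : ∀ α : M → ℂ, (∀ b ∈ N, cj b α = α → b ∈ P) → (∀ p ∈ P, cj p α = α) →
      2 * (orb N α).card = r := by
    intro α hs hfix
    have h := orb_card P N p2 α hs hfix
    have h' : (Nat.card Z * (r + 1)) * (2 * (orb N α).card) = (Nat.card Z * (r + 1)) * r := by
      have h'' : 2 * ((orb N α).card * Nat.card P) = 2 * Nat.card N := by rw [h]
      rw [c2, c1] at h''
      calc _ = 2 * ((orb N α).card * (Nat.card Z * (r + 1))) := by ring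
        _ = _ := by rw [h'']; ring
    exact Nat.eq_of_mul_eq_mul_left (Nat.mul_pos hz0 (Nat.succ_pos r)) h'
  have ho1 := ho α1 hPA.s1 hfix1
  have ho2 := ho α2 hPA.s2 hfix2
  -- the set of characters below
  have hAb : Ab P ν = ((insert α0 (orb N α1 ∪ orb N α2) : Finset (M → ℂ)) : Set (M → ℂ)) := by
    ext α
    rw [Finset.mem_coe, Finset.mem_insert, Finset.mem_union, mem_orb, mem_orb]
    constructor
    · exact fun h => hPA.all α h
    · rintro (h | ⟨b, hb, h⟩ | ⟨b, hb, h⟩)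
      · rw [h]; exact hPA.m0
      · rw [h]; exact MUL_Ab_cj Z P N hZc p2 p4 ν hν α1 hPA.m1 b hb
      · rw [h]; exact MUL_Ab_cj Z P N hZc p2 p4 ν hν α2 hPA.m2 b hb
  have hd0 : α0 ∉ orb N α1 ∪ orb N α2 := by
    rw [Finset.mem_union, mem_orb, mem_orb]
    rintro (⟨b, hb, h⟩ | ⟨b, hb, h⟩)
    · exact hPA.n1 b hb h.symm
    · exact hPA.n2 b hb h.symm
  have hd12 : Disjoint (orb N α1) (orb N α2) := by
    rw [Finset.disjoint_left]
    intro α ha hb
    rw [mem_orb] at ha hb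
    obtain ⟨b, hb1, h⟩ := ha
    obtain ⟨b', hb2, h'⟩ := hb
    apply hPA.n12 (b * b'⁻¹) (N.mul_mem hb1 (N.inv_mem hb2))
    rw [MUL_cj_mul, ← h, h', ← MUL_cj_mul, mul_inv_cancel, MUL_cj_one]
  -- the finite set of characters above
  obtain ⟨fs, hfs, -⟩ := FI.Lib.lS9 M ⊤
  set F := fs.filter (fun χ => Over χ ν) with hF
  have hmF : ∀ χ, χ ∈ F ↔ χ ∈ Ab ⊤ ν := by
    intro χ
    rw [hF, Finset.mem_filter, hfs]
    rfl
  have hR := h2 M Z P p1 hZc p3 ν hν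
  have hk : ∀ χ : M → ℂ, ∃ k : ℕ × ℕ × ℕ, χ ∈ F →
      ml P χ α0 = k.1 ∧ ml P χ α1 = k.2.1 ∧ ml P χ α2 = k.2.2 := by
    intro χ
    by_cases hχ : χ ∈ F
    · obtain ⟨hr1, -, -, -⟩ := hR χ ((hmF χ).1 hχ)
      obtain ⟨k0, hk0⟩ := hr1 α0 hPA.m0
      obtain ⟨k1, hk1⟩ := hr1 α1 hPA.m1
      obtain ⟨k2, hk2⟩ := hr1 α2 hPA.m2
      exact ⟨(k0, k1, k2), fun _ => ⟨hk0, hk1, hk2⟩⟩
    · exact ⟨(0, 0, 0), fun h => absurd h hχ⟩
  choose k hk using hk
  have hk0 : ∀ χ ∈ F, ml P χ α0 = (k χ).1 := fun χ h => (hk χ h).1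
  have hk1 : ∀ χ ∈ F, ml P χ α1 = (k χ).2.1 := fun χ h => (hk χ h).2.1
  have hk2 : ∀ χ ∈ F, ml P χ α2 = (k χ).2.2 := fun χ h => (hk χ h).2.2
  -- sums over the characters below
  have hsumAb : ∀ χ ∈ F, ∀ w : (M → ℂ) → ℂ, ∑ᶠ α ∈ Ab P ν, ml P χ α * w α =
      ml P χ α0 * w α0 + (∑ α ∈ orb N α1, ml P χ α1 * w α + ∑ α ∈ orb N α2, ml P χ α2 * w α) := by
    intro χ hχ w
    obtain ⟨-, -, -, hr4⟩ := hR χ ((hmF χ).1 hχ)
    rw [hAb, finsum_mem_coe_finset, Finset.sum_insert hd0, Finset.sum_union hd12]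
    congr 2
    · refine Finset.sum_congr rfl fun α hα => ?_
      rw [mem_orb] at hα
      obtain ⟨b, -, rfl⟩ := hα
      rw [hr4]
    · refine Finset.sum_congr rfl fun α hα => ?_
      rw [mem_orb] at hα
      obtain ⟨b, -, rfl⟩ := hα
      rw [hr4]
  have hdeg : ∀ χ ∈ F, χ 1 = ml P χ α0 + ((orb N α1).card * ml P χ α1 +
      (orb N α2).card * ml P χ α2) := by
    intro χ hχ
    obtain ⟨-, -, hr3, -⟩ := hR χ ((hmF χ).1 hχ)
    have h := hsumAb χ hχ (fun _ => 1)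
    simp only [mul_one, Finset.sum_const, nsmul_eq_mul] at h
    rw [hr3, h]
  -- the sums of products
  have hq0 : (Nat.card Z : ℂ) ≠ 0 := by exact_mod_cast hz0.ne'
  have hr0 : ((r : ℂ) + 1) ≠ 0 := by exact_mod_cast Nat.succ_ne_zero r
  have C1 : (Nat.card P : ℂ) = Nat.card Z * (r + 1) := by exact_mod_cast c1
  have C2 : 2 * (Nat.card N : ℂ) = Nat.card Z * ((r + 1) * r) := by exact_mod_cast c2
  have C3 : 2 * (Nat.card M : ℂ) = Nat.card Z * ((r + 1) * (r * r + 2 * r)) := by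
    exact_mod_cast c3
  have hT : ∀ α ∈ Ab P ν, ∀ β ∈ Ab P ν, ∀ c : ℕ,
      Nat.card {b : N // cj (b : M) α = β} = c →
      2 * ∑ χ ∈ F, ml P χ α * ml P χ β = r + 2 * c / (Nat.card P : ℂ) := by
    intro α hα β hβ c hc
    have h := h1 M Z P N p1 p2 hZc p3 p4 p5 ν hν α hα β hβ
    have hFc : Ab ⊤ ν = ((F : Finset (M → ℂ)) : Set (M → ℂ)) := by
      ext χ
      rw [Finset.mem_coe, hmF]
    rw [hFc, finsum_mem_coe_finset, hc] at h
    rw [h, mul_add]
    congr 1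
    · have e1 : 2 * (((Nat.card M : ℂ) - Nat.card N) * Nat.card Z /
          (Nat.card P * Nat.card P : ℂ)) =
          ((2 * (Nat.card M : ℂ) - 2 * Nat.card N) * Nat.card Z) /
          (Nat.card P * Nat.card P : ℂ) := by ring
      rw [e1, C1, C2, C3]
      field_simp
      ring
    · ring
  have hP0 : (Nat.card P : ℂ) ≠ 0 := by
    rw [C1]
    exact mul_ne_zero hq0 hr0
  have hempty : ∀ α β : M → ℂ, (∀ b ∈ N, cj b α ≠ β) →
      Nat.card {b : N // cj (b : M) α = β} = 0 := by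
    intro α β h
    have : IsEmpty {b : N // cj (b : M) α = β} := ⟨fun b => h _ b.1.2 b.2⟩
    exact Nat.card_of_isEmpty
  have hstab : ∀ α : M → ℂ, (∀ b ∈ N, cj b α = α → b ∈ P) → (∀ p ∈ P, cj p α = α) →
      Nat.card {b : N // cj (b : M) α = α} = Nat.card P := by
    intro α hs hfix
    refine Nat.card_congr
      { toFun := fun b => ⟨b.1.1, hs _ b.1.2 b.2⟩
        invFun := fun p => ⟨⟨p.1, p2 p.2⟩, hfix _ p.2⟩
        left_inv := fun b => rfl
        right_inv := fun p => rfl }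
  have e00 := hT α0 hPA.m0 α0 hPA.m0 (Nat.card N)
    (Nat.card_congr (Equiv.subtypeUnivEquiv fun b => hPA.inv _ b.2))
  have e01 := hT α0 hPA.m0 α1 hPA.m1 0 (hempty _ _ (fun b hb h => by
    rw [hPA.inv b hb] at h
    exact hPA.n1 1 N.one_mem (by rw [MUL_cj_one]; exact h.symm)))
  have e02 := hT α0 hPA.m0 α2 hPA.m2 0 (hempty _ _ (fun b hb h => by
    rw [hPA.inv b hb] at h
    exact hPA.n2 1 N.one_mem (by rw [MUL_cj_one]; exact h.symm)))
  have e11 := hT α1 hPA.m1 α1 hPA.m1 (Nat.card P) (hstab α1 hPA.s1 hfix1)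
  have e22 := hT α2 hPA.m2 α2 hPA.m2 (Nat.card P) (hstab α2 hPA.s2 hfix2)
  have e12 := hT α1 hPA.m1 α2 hPA.m2 0 (hempty _ _ hPA.n12)
  have hcastsum : ∀ (a b : (M → ℂ) → ℕ) (α β : M → ℂ), (∀ χ ∈ F, ml P χ α = a χ) →
      (∀ χ ∈ F, ml P χ β = b χ) →
      ∑ χ ∈ F, ml P χ α * ml P χ β = ((∑ χ ∈ F, a χ * b χ : ℕ) : ℂ) := by
    intro a b α β ha hb
    rw [Nat.cast_sum]
    refine Finset.sum_congr rfl fun χ hχ => ?_
    rw [ha χ hχ, hb χ hχ, Nat.cast_mul]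
  rw [hcastsum _ _ _ _ hk0 hk0] at e00
  rw [hcastsum _ _ _ _ hk0 hk1] at e01
  rw [hcastsum _ _ _ _ hk0 hk2] at e02
  rw [hcastsum _ _ _ _ hk1 hk1] at e11
  rw [hcastsum _ _ _ _ hk2 hk2] at e22
  rw [hcastsum _ _ _ _ hk1 hk2] at e12
  have d00 : 2 * (Nat.card N : ℂ) / (Nat.card P : ℂ) = r := by
    rw [C2, C1]
    field_simp
  have dPP : 2 * (Nat.card P : ℂ) / (Nat.card P : ℂ) = 2 := by
    field_simp
  rw [d00] at e00
  rw [Nat.cast_zero, mul_zero, zero_div, add_zero] at e01 e02 e12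
  rw [dPP] at e11 e22
  refine ⟨F, fun χ => (k χ).1, fun χ => (k χ).2.1, fun χ => (k χ).2.2, hmF, ?_, ?_, ?_, ?_, ?_,
    ?_, ?_, ?_, ?_⟩
  · intro χ hχ
    have h := hdeg χ hχ
    rw [hk0 χ hχ, hk1 χ hχ, hk2 χ hχ] at h
    have hre : (χ 1).re = (k χ).1 + ((orb N α1).card * (k χ).2.1 +
        (orb N α2).card * (k χ).2.2 : ℝ) := by
      rw [h]
      have : (((k χ).1 : ℂ) + ((orb N α1).card * (k χ).2.1 + (orb N α2).card * (k χ).2.2)) =
          (((k χ).1 + ((orb N α1).card * (k χ).2.1 +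
        (orb N α2).card * (k χ).2.2) : ℝ) : ℂ) := by push_cast; ring
      rw [this, Complex.ofReal_re]
    have g1 : 2 * ((orb N α1).card : ℝ) = r := by exact_mod_cast ho1
    have g2 : 2 * ((orb N α2).card : ℝ) = r := by exact_mod_cast ho2
    rw [hre, hr]
    push_cast
    linear_combination ((k χ).2.1 : ℝ) * g1 + ((k χ).2.2 : ℝ) * g2
  · have : 2 * ∑ χ ∈ F, (k χ).1 * (k χ).1 = r + r := by exact_mod_cast e00
    rw [hr]; beta_reduce; omega
  · have : 2 * ∑ χ ∈ F, (k χ).1 * (k χ).2.1 = r := by exact_mod_cast e01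
    rw [hr]; beta_reduce; omega
  · have : 2 * ∑ χ ∈ F, (k χ).1 * (k χ).2.2 = r := by exact_mod_cast e02
    rw [hr]; beta_reduce; omega
  · have : 2 * ∑ χ ∈ F, (k χ).2.1 * (k χ).2.1 = r + 2 := by exact_mod_cast e11
    rw [hr]; beta_reduce; omega
  · have : 2 * ∑ χ ∈ F, (k χ).2.2 * (k χ).2.2 = r + 2 := by exact_mod_cast e22
    rw [hr]; beta_reduce; omega
  · have : 2 * ∑ χ ∈ F, (k χ).2.1 * (k χ).2.2 = r := by exact_mod_cast e12
    rw [hr]; beta_reduce; omega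
  · intro χ hχ hm1' hm2'
    have hm1 : (k χ).2.1 = 0 := hm1'
    have hm2 : (k χ).2.2 = 0 := hm2'
    have g1 : ml P χ α1 = 0 := by rw [hk1 χ hχ, hm1, Nat.cast_zero]
    have g2 : ml P χ α2 = 0 := by rw [hk2 χ hχ, hm2, Nat.cast_zero]
    have hd := hdeg χ hχ
    rw [g1, g2, mul_zero, mul_zero, add_zero, add_zero] at hd
    obtain ⟨-, hr2, -, -⟩ := hR χ ((hmF χ).1 hχ)
    refine h6 A S hQ.alm M π hrange hker χ ((hmF χ).1 hχ).1 P α0 hPA.m0.1 p3 ?_ ?_
    · intro x hx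
      rw [hr2 x hx, hsumAb χ hχ (fun α => α x), g1, g2]
      simp only [zero_mul, Finset.sum_const_zero, add_zero]
      rw [← hd]
    · have hU1 : 1 < Nat.card U := by rw [hQ.crU]; have := hQ.sev; omega
      have hne : U ≠ ⊥ := by
        intro h
        rw [h] at hU1
        rw [Subgroup.card_bot] at hU1
        exact lt_irrefl _ hU1
      obtain ⟨⟨u, hu⟩, hu1'⟩ := (Subgroup.ne_bot_iff_exists_ne_one (H := U)).1 hne
      have hu1 : u ≠ 1 := fun h => hu1' (Subtype.ext h)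
      have huS : u ∈ π.range := by rw [hrange]; exact hQ.US hu
      obtain ⟨x, hx⟩ := huS
      refine ⟨x, ?_, ?_⟩
      · rw [hP, Subgroup.mem_comap, hx]; exact hu
      · rw [hx]; exact hu1
  · intro σ a ha hσZ hσ χ hχ hχσ
    have hne1 : S.index ≠ 1 := by
      intro h
      rw [Subgroup.index_eq_one] at h
      rw [h] at ha
      exact ha (Subgroup.mem_top a)
    rcases hQ.two with h | ⟨hi2, b, hbB, hbS⟩
    · exact absurd h hne1
    have hs : a⁻¹ * b ∈ S := by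
      rw [Subgroup.mul_mem_iff_of_index_two hi2, Subgroup.inv_mem_iff]
      exact ⟨fun h => absurd h ha, fun h => absurd h hbS⟩
    rw [← hrange] at hs
    obtain ⟨m0, hm0⟩ := hs
    have hcl : ∀ g x, χ (g * x * g⁻¹) = χ x := fun g x =>
      (FI.Lib.lS1 M ⊤ χ ((hmF χ).1 hχ).1).2.1 g (Subgroup.mem_top g) x
    set σ' : M ≃* M := (MulAut.conj m0).trans σ with hσ'
    have hσ'a : ∀ m, σ' m = σ (m0 * m * m0⁻¹) := fun m => rfl
    have hχσ' : ∀ m, χ (σ' m) = χ m := by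
      intro m
      rw [hσ'a, show χ (σ (m0 * m * m0⁻¹)) = χ (m0 * m * m0⁻¹) from congrFun hχσ _, hcl]
    obtain ⟨c, hcN, hc⟩ := h5 q A S U B hQ M π hrange hker ν hν α0 α1 α2 hPA σ' b hbB hbS
      (by
        intro z hz
        rw [hσ'a, ← hZc z hz m0, mul_inv_cancel_right]
        exact hσZ z hz)
      (by
        intro m
        rw [hσ'a, hσ, map_mul, map_mul, map_inv, hm0]
        group)
    obtain ⟨-, -, -, hr4⟩ := hR χ ((hmF χ).1 hχ)
    have hml : ml P χ α2 = ml P χ α1 := by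
      rw [← hr4 α1 c, ← hc]
      unfold ml
      congr 1
      symm
      refine Fintype.sum_equiv σ'.toEquiv _ _ fun g => ?_
      simp only [MulEquiv.toEquiv_eq_coe, EquivLike.coe_coe]
      rw [hχσ']
    rw [hk1 χ hχ, hk2 χ hχ] at hml
    exact_mod_cast hml.symm

end Pool.Agent.H66.FIB
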